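import Pool.Agent.H69.OC.Targets

/-!
# Module EXT (MP_781dd6_co): extension of the labels into the pocket.
-/

set_option autoImplicit false
set_option linter.unusedSectionVars false
open scoped Classical
open Finset

namespace Pool.Agent.H67.OC.EXT

open Pool.Agent.H69.OC Pool.Agent.H69.OC.DG

variable {V D : Type} [Fintype V] [Fintype D] {G : DG V D}

/-- composing a balanced labelling with a function -/
theorem balAt_comp {A : Finset D} {g : D → ℕ} {v : V} (h : G.BalAt A g v) (up : ℕ → ℕ) :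
    G.BalAt A (fun d => up (g d)) v := by
  intro k
  have key : ∀ q : D → ℕ, (∀ d, q d ∈ (univ : Finset D).image g) →
      (sel A fun d => G.src d = v ∧ up (q d) = k).card =
        ∑ j ∈ sel ((univ : Finset D).image g) (fun j => up j = k),
          (sel A fun d => G.src d = v ∧ q d = j).card := by
    intro q hq
    rw [Finset.card_eq_sum_card_fiberwise (f := q)
      (t := sel ((univ : Finset D).image g) (fun j => up j = k))]
    · apply sum_congr rfl
      intro j hj
      rw [mem_sel] at hj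
      congr 1
      ext d
      simp only [mem_filter, mem_sel]
      constructor
      · rintro ⟨⟨h1, h2, h3⟩, h4⟩
        exact ⟨h1, h2, h4⟩
      · rintro ⟨h1, h2, h4⟩
        exact ⟨⟨h1, h2, by rw [h4]; exact hj.2⟩, h4⟩
    · intro d hd
      rw [mem_coe, mem_sel] at hd
      rw [mem_coe, mem_sel]
      exact ⟨hq d, hd.2.2⟩
  rw [key g (fun d => mem_image_of_mem _ (mem_univ _)),
    key (fun d => g (G.inv d)) (fun d => mem_image_of_mem _ (mem_univ _))]
  exact sum_congr rfl fun j _ => h j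

/-- reversing the labels -/
theorem balAt_inv {A : Finset D} {g : D → ℕ} {v : V} (h : G.BalAt A g v) :
    G.BalAt A (fun d => g (G.inv d)) v := by
  intro k
  simp only [G.inv_inv]
  exact (h k).symm

theorem balAt_congr {A : Finset D} {g g' : D → ℕ} {v : V} (h : G.BalAt A g v)
    (h1 : ∀ d, G.src d = v → g' d = g d ∧ g' (G.inv d) = g (G.inv d)) : G.BalAt A g' v := by
  intro k
  have e1 : (sel A fun d => G.src d = v ∧ g' d = k) = sel A fun d => G.src d = v ∧ g d = k := by
    apply sel_congr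
    intro d
    constructor
    · rintro ⟨a, b, c⟩
      exact ⟨a, b, by rw [← (h1 d b).1]; exact c⟩
    · rintro ⟨a, b, c⟩
      exact ⟨a, b, by rw [(h1 d b).1]; exact c⟩
  have e2 : (sel A fun d => G.src d = v ∧ g' (G.inv d) = k) =
      sel A fun d => G.src d = v ∧ g (G.inv d) = k := by
    apply sel_congr
    intro d
    constructor
    · rintro ⟨a, b, c⟩
      exact ⟨a, b, by rw [← (h1 d b).2]; exact c⟩
    · rintro ⟨a, b, c⟩
      exact ⟨a, b, by rw [(h1 d b).2]; exact c⟩
  rw [e1, e2]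
  exact h k

theorem finish {X : Finset V} {mu lam : D → ℕ} (hX : ∀ v ∈ X, G.BalAt univ lam v)
    (hne : ∀ d, G.Tc X d → lam d ≠ lam (G.inv d)) (hmu : ∀ v ∉ X, G.BalAt univ mu v)
    (hmune : ∀ d, G.Tc Xᶜ d → mu d ≠ mu (G.inv d))
    (hag : ∀ d, G.src d ∉ X → lam d = mu d ∧ lam (G.inv d) = mu (G.inv d)) :
    G.Cov univ lam := by
  refine ⟨fun d _ => ?_, fun v => ?_⟩
  · by_cases h : G.Tc X d
    · exact hne d h
    · unfold Tc at h
      push Not at h
      rw [(hag d h.1).1, (hag d h.1).2]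
      exact hmune d (Or.inl (mem_compl.2 h.1))
  · by_cases h : v ∈ X
    · exact hX v h
    · exact balAt_congr (hmu v h) fun d hd => hag d (by rw [hd]; exact h)

/-- labels with three special classes -/
noncomputable def lab (k0 c x y M t : ℕ) (p : ℕ → ℕ) (k : ℕ) : ℕ :=
  if k = k0 then c else if ∃ i ≤ t, Even i ∧ p i = k then x else
    if ∃ i ≤ t, ¬ Even i ∧ p i = k then y else M + k

theorem lab_k0 {k0 c x y M t : ℕ} {p : ℕ → ℕ} : lab k0 c x y M t p k0 = c := if_pos rfl

theorem lab_even {k0 c x y M t : ℕ} {p : ℕ → ℕ} {i : ℕ} (hi : i ≤ t) (he : Even i)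
    (h0 : p i ≠ k0) : lab k0 c x y M t p (p i) = x := by
  unfold lab
  rw [if_neg h0, if_pos ⟨i, hi, he, rfl⟩]

theorem lab_odd {k0 c x y M t : ℕ} {p : ℕ → ℕ} (hinj : ∀ i ≤ t, ∀ j ≤ t, p i = p j → i = j)
    {i : ℕ} (hi : i ≤ t) (he : ¬ Even i) (h0 : p i ≠ k0) : lab k0 c x y M t p (p i) = y := by
  unfold lab
  rw [if_neg h0, if_neg, if_pos ⟨i, hi, he, rfl⟩]
  rintro ⟨j, hj, hje, hjp⟩
  have := hinj j hj i hi hjp
  subst this
  exact he hje

theorem lab_cls (k0 c x y M t : ℕ) (p : ℕ → ℕ) (k : ℕ) :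
    (k = k0 ∧ lab k0 c x y M t p k = c) ∨
    (∃ i ≤ t, Even i ∧ p i = k ∧ lab k0 c x y M t p k = x) ∨
    (∃ i ≤ t, ¬ Even i ∧ p i = k ∧ lab k0 c x y M t p k = y) ∨
    lab k0 c x y M t p k = M + k := by
  unfold lab
  split_ifs with h1 h2 h3
  · exact Or.inl ⟨h1, rfl⟩
  · obtain ⟨i, hi, he, hp⟩ := h2
    exact Or.inr (Or.inl ⟨i, hi, he, hp, rfl⟩)
  · obtain ⟨i, hi, he, hp⟩ := h3
    exact Or.inr (Or.inr (Or.inl ⟨i, hi, he, hp, rfl⟩))
  · exact Or.inr (Or.inr (Or.inr rfl))

theorem lab_ne {k0 c x y M t : ℕ} {p : ℕ → ℕ} (hc : c < M) (hx : x < M) (hy : y < M)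
    (hxy : x ≠ y) (hcx : c ≠ x) (hcy : c ≠ y) {k k' : ℕ} (hk : k ≠ k')
    (hch : ∀ i ≤ t, ∀ j ≤ t, k = p i → k' = p j → i = j + 1 ∨ j = i + 1) :
    lab k0 c x y M t p k ≠ lab k0 c x y M t p k' := by
  rcases lab_cls k0 c x y M t p k with ⟨a1, a2⟩ | ⟨i, a0, a1, a2, a3⟩ | ⟨i, a0, a1, a2, a3⟩ | a1 <;>
  rcases lab_cls k0 c x y M t p k' with ⟨b1, b2⟩ | ⟨j, b0, b1, b2, b3⟩ | ⟨j, b0, b1, b2, b3⟩ | b1
  · exact absurd (a1.trans b1.symm) hk
  · rw [a2, b3]; exact hcx
  · rw [a2, b3]; exact hcy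
  · rw [a2, b1]; omega
  · rw [a3, b2]; exact hcx.symm
  · exfalso
    rcases hch i a0 j b0 a2.symm b2.symm with h | h
    · subst h
      exact (Nat.even_add_one.1 a1) b1
    · subst h
      exact (Nat.even_add_one.1 b1) a1
  · rw [a3, b3]; exact hxy
  · rw [a3, b1]; omega
  · rw [a3, b2]; exact hcy.symm
  · rw [a3, b3]; exact hxy.symm
  · exfalso
    rcases hch i a0 j b0 a2.symm b2.symm with h | h
    · subst h
      exact a1 (Nat.even_add_one.2 b1)
    · subst h
      exact b1 (Nat.even_add_one.2 a1)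
  · rw [a3, b1]; omega
  · rw [a1, b2]; omega
  · rw [a1, b3]; omega
  · rw [a1, b3]; omega
  · rw [a1, b1]; omega

/-- labels with four special classes -/
noncomputable def lab4 (s1 s2 s3 s4 m1 m2 m3 m4 M : ℕ) (k : ℕ) : ℕ :=
  if k = s1 then m1 else if k = s2 then m2 else if k = s3 then m3 else if k = s4 then m4
  else M + k

theorem t_ext : T_EXT := by
  intro V D _ _ G hG X g hP hgne d1 d2 d3 d4 hPo V1 t p h hC ht mu hmu hmune hm12 hm13 hst
  have cX : ∀ d, G.src d ∈ X → G.tgt d ∉ X → d = d1 ∨ d = d2 ∨ d = d3 ∨ d = d4 := fun d a b =>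
    (hPo.cut d).1 (mem_cut.2 ⟨mem_univ _, a, b⟩)
  have c1 : G.src d1 ∈ X ∧ G.tgt d1 ∉ X := (mem_cut.1 ((hPo.cut d1).2 (Or.inl rfl))).2
  have c2 : G.src d2 ∈ X ∧ G.tgt d2 ∉ X := (mem_cut.1 ((hPo.cut d2).2 (Or.inr (Or.inl rfl)))).2
  have c3 : G.src d3 ∈ X ∧ G.tgt d3 ∉ X :=
    (mem_cut.1 ((hPo.cut d3).2 (Or.inr (Or.inr (Or.inl rfl))))).2
  have c4 : G.src d4 ∈ X ∧ G.tgt d4 ∉ X :=
    (mem_cut.1 ((hPo.cut d4).2 (Or.inr (Or.inr (Or.inr rfl))))).2
  have cV : ∀ d, G.src d ∈ V1 → G.tgt d ∉ V1 → d = d1 ∨ d = d2 ∨ ∃ i < t, d = h i := fun d a b =>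
    (hC.cut d).1 (mem_cut.2 ⟨mem_univ _, a, b⟩)
  have v1 : G.src d1 ∈ V1 ∧ G.tgt d1 ∉ V1 := (mem_cut.1 ((hC.cut d1).2 (Or.inl rfl))).2
  have v2 : G.src d2 ∈ V1 ∧ G.tgt d2 ∉ V1 := (mem_cut.1 ((hC.cut d2).2 (Or.inr (Or.inl rfl)))).2
  have vh : ∀ i < t, G.src (h i) ∈ V1 ∧ G.tgt (h i) ∉ V1 := fun i hi =>
    (mem_cut.1 ((hC.cut (h i)).2 (Or.inr (Or.inr ⟨i, hi, rfl⟩)))).2
  have tcc : ∀ d, G.tgt d ∉ X → G.Tc Xᶜ d := fun d a => Or.inr (mem_compl.2 a)
  have m1 := hmune d1 (tcc _ c1.2)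
  have m2 := hmune d2 (tcc _ c2.2)
  have m3 := hmune d3 (tcc _ c3.2)
  have m4 := hmune d4 (tcc _ c4.2)
  set M := (univ : Finset D).sup mu + 1 with hM
  have hlt : ∀ d, mu d < M := fun d => Nat.lt_succ_of_le (Finset.le_sup (f := mu) (mem_univ d))
  rcases hst with ⟨e1, e2, e3⟩ | ⟨e1, e2, e3⟩
  · -- planar state
    have clA : ∀ d, g d = g d2 → G.src d ∈ X → G.src d ∈ V1 := by
      intro d hd hdX
      by_contra hdV
      have hin : ∀ d ∈ sel univ (fun d => g d = g d2 ∧ G.src d ∈ X ∧ G.src d ∉ V1),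
          G.tgt d ∈ X ∧ G.tgt d ∉ V1 := by
        intro d hd
        rw [mem_sel] at hd
        obtain ⟨-, a1, a2, a3⟩ := hd
        have hX : G.tgt d ∈ X := by
          by_contra hX
          rcases cX d a2 hX with r | r | r | r
          · rw [r] at a1; exact hPo.n12 a1
          · rw [r] at a3; exact a3 v2.1
          · rw [r] at a1; exact hPo.n23 a1.symm
          · rw [r] at a1; exact hPo.n24 a1.symm
        refine ⟨hX, fun hV => ?_⟩
        rcases cV (G.inv d) hV (by rw [tgt_inv]; exact a3) with r | r | ⟨i, hi, r⟩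
        · have : d = G.inv d1 := inv_eq_iff.1 r
          rw [this, src_inv] at a2
          exact c1.2 a2
        · have : d = G.inv d2 := inv_eq_iff.1 r
          rw [this, src_inv] at a2
          exact c2.2 a2
        · have : d = G.inv (h i) := inv_eq_iff.1 r
          rw [this, (hC.hp i hi).1] at a1
          exact hC.n2 i hi.le a1
      have := hP.orb (sel univ (fun d => g d = g d2 ∧ G.src d ∈ X ∧ G.src d ∉ V1))
        ⟨d, mem_sel.2 ⟨mem_univ _, hd, hdX, hdV⟩⟩
        (fun d hd => ⟨(mem_sel.1 hd).2.2.1, (hin d hd).1⟩)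
        (fun d hd d' h1 h2 => mem_sel.2 ⟨mem_univ _, h2.trans (mem_sel.1 hd).2.1,
          by rw [h1]; exact (hin d hd).1, by rw [h1]; exact (hin d hd).2⟩)
        d (mem_sel.2 ⟨mem_univ _, hd, hdX, hdV⟩) d2 (Or.inl c2.1) hd.symm
      exact (mem_sel.1 this).2.2.2 v2.1
    have clB : ∀ d, g d = g d4 → G.src d ∈ V1 → False := by
      intro d hd hdV
      have hin : ∀ d ∈ sel univ (fun d => g d = g d4 ∧ G.src d ∈ V1), G.tgt d ∈ V1 := by
        intro d hd
        rw [mem_sel] at hd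
        obtain ⟨-, a1, a2⟩ := hd
        by_contra hV
        rcases cV d a2 hV with r | r | ⟨i, hi, r⟩
        · rw [r] at a1; exact hPo.n14 a1
        · rw [r] at a1; exact hPo.n24 a1
        · rw [r, (hC.hp i hi).2] at a1
          exact hC.n4 (i + 1) hi a1
      have := hP.orb (sel univ (fun d => g d = g d4 ∧ G.src d ∈ V1))
        ⟨d, mem_sel.2 ⟨mem_univ _, hd, hdV⟩⟩
        (fun d hd => ⟨hC.sub (mem_sel.1 hd).2.2, hC.sub (hin d hd)⟩)
        (fun d hd d' h1 h2 => mem_sel.2 ⟨mem_univ _, h2.trans (mem_sel.1 hd).2.1,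
          by rw [h1]; exact hin d hd⟩)
        d (mem_sel.2 ⟨mem_univ _, hd, hdV⟩) d4 (Or.inl c4.1) hd.symm
      rcases cV d4 (mem_sel.1 this).2.2 (fun h => c4.2 (hC.sub h)) with r | r | ⟨i, hi, r⟩
      · exact hPo.n14 (by rw [r])
      · exact hPo.n24 (by rw [r])
      · exact c4.2 (by rw [r]; exact hC.inX i hi)
    have clC : ∀ d, G.Tc X d → g d = g d2 → g (G.inv d) = g d4 → False := by
      intro d hd a1 a2
      rcases hd with hd | hd
      · have hb : G.BalAt univ g (G.tgt (G.inv d)) := by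
          rw [tgt_inv]; exact hP.bal _ hd
        obtain ⟨d', -, b1, b2⟩ := bal_next cl_univ hb (mem_univ _)
        rw [tgt_inv] at b1
        exact clB d' (b2.trans a2) (by rw [b1]; exact clA d a1 hd)
      · obtain ⟨d', -, b1, b2⟩ := bal_next cl_univ (hP.bal _ hd) (mem_univ _)
        have : G.src d' ∈ V1 := clA d' (b2.trans a1) (by rw [b1]; exact hd)
        exact clB (G.inv d) a2 (by rw [src_inv, ← b1]; exact this)
    set up := lab4 (g d1) (g d2) (g d3) (g d4) (mu d1) (mu d2) (mu d3) (mu d4) M with hup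
    have u1 : up (g d1) = mu d1 := if_pos rfl
    have u2 : up (g d2) = mu d2 := by
      rw [hup, lab4, if_neg hPo.n12.symm, if_pos rfl]
    have u3 : up (g d3) = mu d3 := by
      rw [hup, lab4, if_neg hPo.n13.symm, if_neg hPo.n23.symm, if_pos rfl]
    have u4 : up (g d4) = mu d4 := by
      rw [hup, lab4, if_neg hPo.n14.symm, if_neg hPo.n24.symm, if_neg hPo.n34.symm, if_pos rfl]
    have hcls : ∀ k, (k = g d1 ∧ up k = mu d1) ∨ (k = g d2 ∧ up k = mu d2) ∨
        (k = g d3 ∧ up k = mu d3) ∨ (k = g d4 ∧ up k = mu d4) ∨ up k = M + k := by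
      intro k
      rw [hup, lab4]
      split_ifs with r1 r2 r3 r4
      · exact Or.inl ⟨r1, rfl⟩
      · exact Or.inr (Or.inl ⟨r2, rfl⟩)
      · exact Or.inr (Or.inr (Or.inl ⟨r3, rfl⟩))
      · exact Or.inr (Or.inr (Or.inr (Or.inl ⟨r4, rfl⟩)))
      · exact Or.inr (Or.inr (Or.inr (Or.inr rfl)))
    have q12 : mu d1 ≠ mu d2 := by rw [← hm12]; exact m1
    have q23 : mu d2 ≠ mu d3 := by rw [e1]; exact m2
    have q34 : mu d3 ≠ mu d4 := by rw [e2]; exact m3
    have q41 : mu d4 ≠ mu d1 := by rw [← e3]; exact m4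
    have q13 : mu d1 ≠ mu d3 := by rw [e1]; exact hm13
    refine ⟨fun d => if G.Tc X d then up (g d) else mu d, finish (X := X) (mu := mu) ?_ ?_ hmu
      hmune ?_⟩
    · intro v hv
      refine balAt_congr (balAt_comp (hP.bal v hv) up) fun d hd => ⟨?_, ?_⟩
      · exact if_pos (Or.inl (by rw [hd]; exact hv))
      · exact if_pos (Or.inr (by rw [tgt_inv, hd]; exact hv))
    · intro d hd
      have hd' : G.Tc X (G.inv d) := tc_inv.2 hd
      simp only [if_pos hd, if_pos hd']
      have hne := hgne d hd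
      have l1 := hlt d1
      have l2 := hlt d2
      have l3 := hlt d3
      have l4 := hlt d4
      rcases hcls (g d) with ⟨a1, a2⟩ | ⟨a1, a2⟩ | ⟨a1, a2⟩ | ⟨a1, a2⟩ | a2 <;>
      rcases hcls (g (G.inv d)) with ⟨b1, b2⟩ | ⟨b1, b2⟩ | ⟨b1, b2⟩ | ⟨b1, b2⟩ | b2 <;>
      rw [a2, b2] <;>
      first
        | exact absurd (a1.trans b1.symm) hne
        | assumption
        | (apply Ne.symm; assumption)
        | omega
        | exact absurd (clC d hd a1 b1) id
        | exact absurd (clC (G.inv d) hd' b1 (by rw [G.inv_inv]; exact a1)) id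
    · intro d hd
      by_cases hX : G.Tc X d
      · have hX' : G.Tc X (G.inv d) := tc_inv.2 hX
        simp only [if_pos hX, if_pos hX']
        have hT : G.tgt d ∈ X := hX.resolve_left hd
        rcases cX (G.inv d) hT (by rw [tgt_inv]; exact hd) with r | r | r | r <;>
        rw [r, inv_eq_iff.1 r]
        · exact ⟨by rw [hPo.h12, u2, hm12], by rw [u1]⟩
        · exact ⟨by rw [hPo.h23, u3, e1], by rw [u2]⟩
        · exact ⟨by rw [hPo.h34, u4, e2], by rw [u3]⟩
        · exact ⟨by rw [hPo.h41, u1, e3], by rw [u4]⟩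
      · have hX' : ¬ G.Tc X (G.inv d) := fun h => hX (tc_inv.1 h)
        simp only [if_neg hX, if_neg hX', and_self]
  · -- crossed state
    have htn : ¬ Even t := Nat.not_even_iff_odd.2 ht
    set a := mu d1 with ha
    set b := mu (G.inv d2) with hb
    set up := lab (g d2) (mu d2) a b M t p with hup
    set dn := lab (g d4) (mu d3) b a M t p with hdn
    have up2 : up (g d2) = mu d2 := lab_k0
    have dn4 : dn (g d4) = mu d3 := lab_k0
    have upe : ∀ i ≤ t, Even i → up (p i) = a := fun i hi he => lab_even hi he (hC.n2 i hi)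
    have upo : ∀ i ≤ t, ¬ Even i → up (p i) = b := fun i hi he => lab_odd hC.inj hi he (hC.n2 i hi)
    have dne : ∀ i ≤ t, Even i → dn (p i) = b := fun i hi he => lab_even hi he (hC.n4 i hi)
    have dno : ∀ i ≤ t, ¬ Even i → dn (p i) = a := fun i hi he => lab_odd hC.inj hi he (hC.n4 i hi)
    have up1 : up (g d1) = a := by rw [← hC.p0]; exact upe 0 (Nat.zero_le _) (by decide)
    have up3 : up (g d3) = b := by rw [← hC.pt]; exact upo t le_rfl htn
    have dn1 : dn (g d1) = b := by rw [← hC.p0]; exact dne 0 (Nat.zero_le _) (by decide)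
    have dn3 : dn (g d3) = a := by rw [← hC.pt]; exact dno t le_rfl htn
    have leg1 : ∀ i < t, up (g (h i)) = dn (g (G.inv (h i))) := by
      intro i hi
      rw [(hC.hp i hi).1, (hC.hp i hi).2]
      by_cases he : Even i
      · rw [dne i hi.le he, upo (i + 1) hi (by rw [Nat.even_add_one]; exact not_not.2 he)]
      · rw [dno i hi.le he, upe (i + 1) hi (by rw [Nat.even_add_one]; exact he)]
    have leg2 : ∀ i < t, up (g (G.inv (h i))) = dn (g (h i)) := by
      intro i hi
      rw [(hC.hp i hi).1, (hC.hp i hi).2]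
      by_cases he : Even i
      · rw [upe i hi.le he, dno (i + 1) hi (by rw [Nat.even_add_one]; exact not_not.2 he)]
      · rw [upo i hi.le he, dne (i + 1) hi (by rw [Nat.even_add_one]; exact he)]
    have r1 : mu d2 ≠ a := by rw [← hm12]; exact m1.symm
    have r2 : mu d2 ≠ b := m2
    have r3 : mu d3 ≠ a := by rw [← e1]; exact m3
    have r4 : mu d3 ≠ b := by rw [← e3, ← e2]; exact m4.symm
    have lup : ∀ d, G.Tc X d → up (g d) ≠ up (g (G.inv d)) := fun d hd =>
      lab_ne (hlt _) (hlt _) (hlt _) hm13 r1 r2 (hgne d hd)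
        (fun i hi j hj h1 h2 => hC.ch d hd i hi j hj h1 h2)
    have ldn : ∀ d, G.Tc X d → dn (g (G.inv d)) ≠ dn (g d) := by
      intro d hd
      refine lab_ne (hlt _) (hlt _) (hlt _) hm13.symm r4 r3 (hgne d hd).symm ?_
      intro i hi j hj h1 h2
      exact (hC.ch d hd j hj i hi h2 h1).symm
    refine ⟨fun d => if G.Tc V1 d then up (g d) else if G.Tc X d then dn (g (G.inv d)) else mu d,
      finish (X := X) (mu := mu) ?_ ?_ hmu hmune ?_⟩
    · intro v hv
      by_cases hvV : v ∈ V1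
      · refine balAt_congr (balAt_comp (hP.bal v hv) up) fun d hd => ⟨?_, ?_⟩
        · exact if_pos (Or.inl (by rw [hd]; exact hvV))
        · exact if_pos (Or.inr (by rw [tgt_inv, hd]; exact hvV))
      · refine balAt_congr (balAt_comp (balAt_inv (hP.bal v hv)) dn) fun d hd => ?_
        have hX : G.Tc X d := Or.inl (by rw [hd]; exact hv)
        have hX' : G.Tc X (G.inv d) := tc_inv.2 hX
        by_cases hT : G.Tc V1 d
        · have hT' : G.Tc V1 (G.inv d) := tc_inv.2 hT
          have hs : G.src d ∉ V1 := by rw [hd]; exact hvV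
          have ht1 : G.tgt d ∈ V1 := hT.resolve_left hs
          simp only [if_pos hT, if_pos hT']
          rcases cV (G.inv d) ht1 (by rw [tgt_inv]; exact hs) with r | r | ⟨i, hi, r⟩
          · exfalso
            apply c1.2
            rw [← r, tgt_inv, hd]; exact hv
          · exfalso
            apply c2.2
            rw [← r, tgt_inv, hd]; exact hv
          · rw [r, inv_eq_iff.1 r]
            exact ⟨leg2 i hi, leg1 i hi⟩
        · have hT' : ¬ G.Tc V1 (G.inv d) := fun h => hT (tc_inv.1 h)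
          simp only [if_neg hT, if_neg hT', if_pos hX, if_pos hX', G.inv_inv, and_self]
    · intro d hd
      have hd' : G.Tc X (G.inv d) := tc_inv.2 hd
      by_cases hT : G.Tc V1 d
      · have hT' : G.Tc V1 (G.inv d) := tc_inv.2 hT
        simp only [if_pos hT, if_pos hT']
        exact lup d hd
      · have hT' : ¬ G.Tc V1 (G.inv d) := fun h => hT (tc_inv.1 h)
        simp only [if_neg hT, if_neg hT', if_pos hd, if_pos hd', G.inv_inv]
        exact ldn d hd
    · intro d hd
      by_cases hT : G.Tc V1 d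
      · have hT' : G.Tc V1 (G.inv d) := tc_inv.2 hT
        simp only [if_pos hT, if_pos hT']
        have hs : G.src d ∉ V1 := fun h => hd (hC.sub h)
        have ht1 : G.tgt d ∈ V1 := hT.resolve_left hs
        rcases cV (G.inv d) ht1 (by rw [tgt_inv]; exact hs) with r | r | ⟨i, hi, r⟩
        · rw [r, inv_eq_iff.1 r]
          exact ⟨by rw [hPo.h12, up2, hm12], up1⟩
        · rw [r, inv_eq_iff.1 r]
          exact ⟨by rw [hPo.h23, up3], up2⟩
        · exfalso
          apply hd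
          rw [← tgt_inv, r]
          exact hC.inX i hi
      · have hT' : ¬ G.Tc V1 (G.inv d) := fun h => hT (tc_inv.1 h)
        simp only [if_neg hT, if_neg hT']
        by_cases hX : G.Tc X d
        · have hX' : G.Tc X (G.inv d) := tc_inv.2 hX
          simp only [if_pos hX, if_pos hX']
          have hT2 : G.tgt d ∈ X := hX.resolve_left hd
          rcases cX (G.inv d) hT2 (by rw [tgt_inv]; exact hd) with r | r | r | r
          · exact absurd (by rw [r]; exact Or.inl v1.1) hT'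
          · exact absurd (by rw [r]; exact Or.inl v2.1) hT'
          · rw [r, inv_eq_iff.1 r]
            exact ⟨by rw [dn3, e1], by rw [hPo.h34, dn4]⟩
          · rw [r, inv_eq_iff.1 r]
            exact ⟨by rw [dn4, e3], by rw [hPo.h41, dn1, e2]⟩
        · have hX' : ¬ G.Tc X (G.inv d) := fun h => hX (tc_inv.1 h)
          simp only [if_neg hX, if_neg hX', and_self]

end Pool.Agent.H67.OC.EXT
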