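import Pool.Agent.H69.OC.Targets

/-!
# Module RING2 (MP_781dd6_co): the labels of the ring.
-/

set_option autoImplicit false
set_option linter.unusedSectionVars false
open scoped Classical
open Finset

namespace Pool.Agent.H67.OC.RING2

open Pool.Agent.H69.OC Pool.Agent.H69.OC.DG

/-! ### The state machine -/

/-- states -/
inductive S3 : Type
  | V : S3
  | U : S3
  | E : S3

/-- step with a leg on the left -/
def sl : S3 → S3
  | S3.V => S3.E
  | S3.U => S3.U
  | S3.E => S3.V

/-- step with a leg on the right -/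
def sr : S3 → S3
  | S3.V => S3.V
  | S3.U => S3.E
  | S3.E => S3.U

noncomputable def stp (b : Prop) (s : S3) : S3 := if b then sl s else sr s

theorem stp_inj (b : Prop) {s s' : S3} (h : stp b s = stp b s') : s = s' := by
  unfold stp at h
  by_cases hb : b
  · rw [if_pos hb, if_pos hb] at h
    cases s <;> cases s' <;> first | rfl | (exact absurd h (by intro h2; cases h2))
  · rw [if_neg hb, if_neg hb] at h
    cases s <;> cases s' <;> first | rfl | (exact absurd h (by intro h2; cases h2))

/-- state after `i` steps -/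
noncomputable def st (l : ℕ → Prop) (s : S3) : ℕ → S3
  | 0 => s
  | i + 1 => stp (l (i + 1)) (st l s i)

/-- number of standing steps -/
noncomputable def yy (l : ℕ → Prop) (s : S3) : ℕ → ℕ
  | 0 => 0
  | i + 1 => if st l s (i + 1) = st l s i then yy l s i + 1 else yy l s i

theorem st_inj (l : ℕ → Prop) {s s' : S3} (i : ℕ) (h : st l s i = st l s' i) : s = s' := by
  induction i with
  | zero => exact h
  | succ i ih => exact ih (stp_inj _ h)

theorem yy_le (l : ℕ → Prop) (s : S3) (i : ℕ) : yy l s i ≤ i := by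
  induction i with
  | zero => exact le_rfl
  | succ i ih =>
    change (if st l s (i + 1) = st l s i then yy l s i + 1 else yy l s i) ≤ i + 1
    split_ifs <;> omega

/-- labels of the faces -/
def lL : S3 → ℕ → ℕ
  | S3.V, _ => 0
  | S3.U, y => y + 2
  | S3.E, y => y + 2

def lR : S3 → ℕ → ℕ
  | S3.V, y => y + 2
  | S3.U, _ => 1
  | S3.E, y => y + 2

/-- labels of the path -/
def cO : S3 → ℕ → ℕ
  | S3.V, _ => 1
  | S3.U, y => y + 2
  | S3.E, _ => 1

def cI : S3 → ℕ → ℕ
  | S3.V, y => y + 2
  | S3.U, _ => 0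
  | S3.E, _ => 0

theorem cOI (s : S3) (y : ℕ) : cO s y ≠ cI s y := by
  cases s <;> simp [cO, cI]

theorem lL_le (s : S3) (y : ℕ) : lL s y ≤ y + 2 := by cases s <;> simp [lL]
theorem lR_le (s : S3) (y : ℕ) : lR s y ≤ y + 2 := by cases s <;> simp [lR]

section step

variable (l : ℕ → Prop) (s : S3) (i : ℕ)

theorem stepL (h : l (i + 1)) :
    (st l s i = S3.V ∧ st l s (i + 1) = S3.E ∧ yy l s (i + 1) = yy l s i) ∨
    (st l s i = S3.U ∧ st l s (i + 1) = S3.U ∧ yy l s (i + 1) = yy l s i + 1) ∨
    (st l s i = S3.E ∧ st l s (i + 1) = S3.V ∧ yy l s (i + 1) = yy l s i) := by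
  have h1 : st l s (i + 1) = sl (st l s i) := if_pos h
  have h2 : yy l s (i + 1) = if st l s (i + 1) = st l s i then yy l s i + 1 else yy l s i := rfl
  rw [h2, h1]
  cases hs : st l s i <;> simp [sl]

theorem stepR (h : ¬ l (i + 1)) :
    (st l s i = S3.V ∧ st l s (i + 1) = S3.V ∧ yy l s (i + 1) = yy l s i + 1) ∨
    (st l s i = S3.U ∧ st l s (i + 1) = S3.E ∧ yy l s (i + 1) = yy l s i) ∨
    (st l s i = S3.E ∧ st l s (i + 1) = S3.U ∧ yy l s (i + 1) = yy l s i) := by
  have h1 : st l s (i + 1) = sr (st l s i) := if_neg h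
  have h2 : yy l s (i + 1) = if st l s (i + 1) = st l s i then yy l s i + 1 else yy l s i := rfl
  rw [h2, h1]
  cases hs : st l s i <;> simp [sr]

noncomputable def LL (i : ℕ) : ℕ := lL (st l s i) (yy l s i)
noncomputable def RR (i : ℕ) : ℕ := lR (st l s i) (yy l s i)
noncomputable def CO (i : ℕ) : ℕ := cO (st l s i) (yy l s i)
noncomputable def CI (i : ℕ) : ℕ := cI (st l s i) (yy l s i)

/-- number of labels equal to `k` in a triple -/
def tri (k a b c : ℕ) : ℕ := (if a = k then 1 else 0) + (if b = k then 1 else 0) +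
  (if c = k then 1 else 0)

theorem LLs (h : ¬ l (i + 1)) : LL l s (i + 1) = LL l s i := by
  unfold LL
  rcases stepR l s i h with ⟨a, b, c⟩ | ⟨a, b, c⟩ | ⟨a, b, c⟩ <;> rw [a, b, c] <;> simp [lL]

theorem RRs (h : l (i + 1)) : RR l s (i + 1) = RR l s i := by
  unfold RR
  rcases stepL l s i h with ⟨a, b, c⟩ | ⟨a, b, c⟩ | ⟨a, b, c⟩ <;> rw [a, b, c] <;> simp [lR]

theorem LLn (h : l (i + 1)) : LL l s i ≠ LL l s (i + 1) := by
  unfold LL
  rcases stepL l s i h with ⟨a, b, c⟩ | ⟨a, b, c⟩ | ⟨a, b, c⟩ <;> rw [a, b, c] <;> simp [lL]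

theorem RRn (h : ¬ l (i + 1)) : RR l s (i + 1) ≠ RR l s i := by
  unfold RR
  rcases stepR l s i h with ⟨a, b, c⟩ | ⟨a, b, c⟩ | ⟨a, b, c⟩ <;> rw [a, b, c] <;> simp [lR]

theorem triL (h : l (i + 1)) (k : ℕ) : tri k (CI l s i) (CO l s (i + 1)) (LL l s i) =
    tri k (CO l s i) (CI l s (i + 1)) (LL l s (i + 1)) := by
  unfold tri LL CO CI
  rcases stepL l s i h with ⟨a, b, c⟩ | ⟨a, b, c⟩ | ⟨a, b, c⟩ <;> rw [a, b, c] <;>
    simp only [lL, cO, cI] <;> ring_nf

theorem triR (h : ¬ l (i + 1)) (k : ℕ) : tri k (CI l s i) (CO l s (i + 1)) (RR l s (i + 1)) =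
    tri k (CO l s i) (CI l s (i + 1)) (RR l s i) := by
  unfold tri RR CO CI
  rcases stepR l s i h with ⟨a, b, c⟩ | ⟨a, b, c⟩ | ⟨a, b, c⟩ <;> rw [a, b, c] <;>
    simp only [lR, cO, cI] <;> ring_nf

end step

theorem LLc (l : ℕ → Prop) (s : S3) (i j : ℕ) (hij : i ≤ j)
    (h : ∀ k, i < k → k ≤ j → ¬ l k) : LL l s i = LL l s j := by
  induction j with
  | zero =>
    have : i = 0 := by omega
    rw [this]
  | succ j ih =>
    rcases Nat.lt_or_ge i (j + 1) with h1 | h1
    · rw [LLs l s j (h (j + 1) h1 le_rfl)]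
      exact ih (by omega) fun k a b => h k a (by omega)
    · have : i = j + 1 := by omega
      rw [this]

theorem RRc (l : ℕ → Prop) (s : S3) (i j : ℕ) (hij : i ≤ j)
    (h : ∀ k, i < k → k ≤ j → l k) : RR l s i = RR l s j := by
  induction j with
  | zero =>
    have : i = 0 := by omega
    rw [this]
  | succ j ih =>
    rcases Nat.lt_or_ge i (j + 1) with h1 | h1
    · rw [RRs l s j (h (j + 1) h1 le_rfl)]
      exact ih (by omega) fun k a b => h k a (by omega)
    · have : i = j + 1 := by omega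
      rw [this]

/-- choice of the first state -/
theorem exS (l : ℕ → Prop) (m : ℕ) : ∃ s : S3, s ≠ S3.E ∧ st l s m ≠ S3.E := by
  by_cases h : st l S3.V m = S3.E
  · refine ⟨S3.U, (by intro h2; cases h2), fun h2 => ?_⟩
    have := st_inj l m (h.trans h2.symm)
    cases this
  · exact ⟨S3.V, (by intro h2; cases h2), h⟩

variable {V D : Type} [Fintype V] [Fintype D] {G : DG V D}

theorem balAt_comp {A : Finset D} {g : D → ℕ} {v : V} (h : G.BalAt A g v) (up : ℕ → ℕ) :
    G.BalAt A (fun d => up (g d)) v := by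
  intro k
  have key : ∀ q : D → ℕ, (∀ d, q d ∈ (univ : Finset D).image g) →
      (sel A fun d => G.src d = v ∧ up (q d) = k).card =
        ∑ j ∈ sel ((univ : Finset D).image g) (fun j => up j = k),
          (sel A fun d => G.src d = v ∧ q d = j).card := by
    intro q hq
    rw [Finset.card_eq_sum_card_fiberwise (f := q)
      (t := sel ((univ : Finset D).image g) (fun j => up j = k))]
    · apply sum_congr rfl
      intro j hj
      rw [mem_sel] at hj
      congr 1
      ext d
      simp only [mem_filter, mem_sel]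
      constructor
      · rintro ⟨⟨h1, h2, h3⟩, h4⟩
        exact ⟨h1, h2, h4⟩
      · rintro ⟨h1, h2, h4⟩
        exact ⟨⟨h1, h2, by rw [h4]; exact hj.2⟩, h4⟩
    · intro d hd
      rw [mem_coe, mem_sel] at hd
      rw [mem_coe, mem_sel]
      exact ⟨hq d, hd.2.2⟩
  rw [key g (fun d => mem_image_of_mem _ (mem_univ _)),
    key (fun d => g (G.inv d)) (fun d => mem_image_of_mem _ (mem_univ _))]
  exact sum_congr rfl fun j _ => h j

/-- counting at a cubic vertex -/
theorem card3 (hG : G.Cub) {v : V} {a b c : D} (hall : ∀ d, G.src d = v → d = a ∨ d = b ∨ d = c)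
    (ha : G.src a = v) (hb : G.src b = v) (hc : G.src c = v) (q : D → ℕ) (k : ℕ) :
    (sel univ fun d => G.src d = v ∧ q d = k).card = tri k (q a) (q b) (q c) := by
  have h3 := hG v
  have hS : (sel univ fun d => G.src d = v) = {a, b, c} := by
    ext d
    simp only [mem_sel, mem_univ, true_and, mem_insert, mem_singleton]
    constructor
    · exact hall d
    · rintro (rfl | rfl | rfl) <;> assumption
  rw [hS] at h3
  have hab : a ≠ b := by
    rintro rfl
    have : ({a, a, c} : Finset D).card ≤ 2 := by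
      rw [insert_idem]
      exact card_le_two
    omega
  have hac : a ≠ c := by
    rintro rfl
    have : ({a, b, a} : Finset D).card ≤ 2 := by
      rw [insert_comm, pair_eq_singleton]
      exact card_le_two
    omega
  have hbc : b ≠ c := by
    rintro rfl
    have : ({a, b, b} : Finset D).card ≤ 2 := by
      rw [pair_eq_singleton]
      exact card_le_two
    omega
  have h4 : (sel univ fun d => G.src d = v ∧ q d = k) =
      ({a, b, c} : Finset D).filter (fun d => q d = k) := by
    rw [← hS]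
    ext d
    simp only [mem_sel, mem_univ, true_and, mem_filter]
  rw [h4, card_filter, sum_insert, sum_insert, sum_singleton, tri]
  · ring
  · simpa using hbc
  · simp only [mem_insert, mem_singleton, not_or]
    exact ⟨hab, hac⟩

theorem bal3 (hG : G.Cub) {v : V} {a b c : D} (hall : ∀ d, G.src d = v → d = a ∨ d = b ∨ d = c)
    (ha : G.src a = v) (hb : G.src b = v) (hc : G.src c = v) (q : D → ℕ)
    (h : ∀ k, tri k (q a) (q b) (q c) = tri k (q (G.inv a)) (q (G.inv b)) (q (G.inv c))) :
    G.BalAt univ q v := by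
  intro k
  rw [card3 hG hall ha hb hc q k, card3 hG hall ha hb hc (fun d => q (G.inv d)) k]
  exact h k

theorem t_ring2 : T_RING2 := by
  intro V D _ _ G hG e f hf X n v c hP h l hR
  obtain ⟨s, hs0, hsn⟩ := exS l (n - 1)
  have hn := hP.pos
  have hcs : ∀ i < n, G.src (c i) = v i := fun i hi => (hP.hc i hi).2.2.1
  have hct : ∀ i < n, G.tgt (c i) = v (i + 1) := fun i hi => (hP.hc i hi).2.2.2
  have hce : ∀ i < n, c i ≠ e := fun i hi => (hP.hc i hi).1
  have hce' : ∀ i < n, c i ≠ G.inv e := fun i hi => (hP.hc i hi).2.1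
  have hvX : ∀ i ≤ n, v i ∈ X := fun i hi => (hP.mem _).2 ⟨i, hi, rfl⟩
  have hcc : ∀ i < n, ∀ j < n, c i = c j → i = j := fun i hi j hj hij =>
    hP.inj i hi.le j hj.le (by rw [← hcs i hi, hij, hcs j hj])
  have hcic : ∀ i < n, ∀ j < n, G.inv (c i) ≠ c j := by
    intro i hi j hj hij
    have h1 : v (i + 1) = v j := by
      rw [← hct i hi, ← hcs j hj, ← hij, src_inv]
    have h2 : v i = v (j + 1) := by
      rw [← hcs i hi, ← hct j hj, ← hij, tgt_inv]
    have h3 := hP.inj _ hi _ hj.le h1
    have h4 := hP.inj _ hi.le _ hj h2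
    omega
  have hiee : G.inv e ≠ e := G.inv_ne e
  -- labels of the faces
  let Lab : ℕ → ℕ := fun k => if hh : ∃ i, i < n ∧ k = f (c i) then LL l s (Classical.choose hh)
    else if hh : ∃ i, i < n ∧ k = f (G.inv (c i)) then RR l s (Classical.choose hh) else n + 5 + k
  have LabL : ∀ i < n, Lab (f (c i)) = LL l s i := by
    intro i hi
    have hh : ∃ j, j < n ∧ f (c i) = f (c j) := ⟨i, hi, rfl⟩
    have e1 : Lab (f (c i)) = LL l s (Classical.choose hh) := dif_pos hh
    rw [e1]
    obtain ⟨h1, h2⟩ := Classical.choose_spec hh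
    rcases lt_trichotomy i (Classical.choose hh) with h3 | h3 | h3
    · exact (LLc l s _ _ h3.le (hR.dL i hi _ h1 h3 h2)).symm
    · rw [← h3]
    · exact LLc l s _ _ h3.le (hR.dL _ h1 i hi h3 h2.symm)
  have LabR : ∀ i < n, Lab (f (G.inv (c i))) = RR l s i := by
    intro i hi
    have hh : ∃ j, j < n ∧ f (G.inv (c i)) = f (G.inv (c j)) := ⟨i, hi, rfl⟩
    have hh' : ¬ ∃ j, j < n ∧ f (G.inv (c i)) = f (c j) := by
      rintro ⟨j, hj, h2⟩
      exact hR.dLR j hj i hi h2.symm
    have e1 : Lab (f (G.inv (c i))) = RR l s (Classical.choose hh) := by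
      change (if hh : ∃ j, j < n ∧ f (G.inv (c i)) = f (c j) then _ else _) = _
      rw [dif_neg hh', dif_pos hh]
    rw [e1]
    obtain ⟨h1, h2⟩ := Classical.choose_spec hh
    rcases lt_trichotomy i (Classical.choose hh) with h3 | h3 | h3
    · exact (RRc l s _ _ h3.le (hR.dR i hi _ h1 h3 h2)).symm
    · rw [← h3]
    · exact RRc l s _ _ h3.le (hR.dR _ h1 i hi h3 h2.symm)
  have LabO : ∀ k, ¬ (∃ i < n, k = f (c i) ∨ k = f (G.inv (c i))) → Lab k = n + 5 + k := by
    intro k hk
    have h1 : ¬ ∃ i, i < n ∧ k = f (c i) := fun ⟨i, hi, h2⟩ => hk ⟨i, hi, Or.inl h2⟩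
    have h2 : ¬ ∃ i, i < n ∧ k = f (G.inv (c i)) := fun ⟨i, hi, h2⟩ => hk ⟨i, hi, Or.inr h2⟩
    change (if hh : ∃ j, j < n ∧ k = f (c j) then _ else _) = _
    rw [dif_neg h1, dif_neg h2]
  have LabS : ∀ k, (∃ i < n, k = f (c i) ∨ k = f (G.inv (c i))) → Lab k < n + 5 := by
    rintro k ⟨i, hi, rfl | rfl⟩
    · rw [LabL i hi]
      have h1 := lL_le (st l s i) (yy l s i)
      have h2 := yy_le l s i
      unfold LL
      omega
    · rw [LabR i hi]
      have h1 := lR_le (st l s i) (yy l s i)
      have h2 := yy_le l s i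
      unfold RR
      omega
  -- the labels of the darts
  let lam : D → ℕ := fun d => if d = e then 0 else if d = G.inv e then 1 else
    if hh : ∃ i, i < n ∧ d = c i then CO l s (Classical.choose hh) else
    if hh : ∃ i, i < n ∧ d = G.inv (c i) then CI l s (Classical.choose hh) else Lab (f d)
  have lame : lam e = 0 := if_pos rfl
  have lamie : lam (G.inv e) = 1 := by
    change (if G.inv e = e then 0 else if G.inv e = G.inv e then 1 else _) = _
    rw [if_neg hiee, if_pos rfl]
  have lamc : ∀ i < n, lam (c i) = CO l s i := by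
    intro i hi
    have hh : ∃ j, j < n ∧ c i = c j := ⟨i, hi, rfl⟩
    change (if c i = e then 0 else if c i = G.inv e then 1 else
      if hh : ∃ j, j < n ∧ c i = c j then CO l s (Classical.choose hh) else _) = _
    rw [if_neg (hce i hi), if_neg (hce' i hi), dif_pos hh]
    obtain ⟨h1, h2⟩ := Classical.choose_spec hh
    rw [← hcc i hi _ h1 h2]
  have lamic : ∀ i < n, lam (G.inv (c i)) = CI l s i := by
    intro i hi
    have hh : ∃ j, j < n ∧ G.inv (c i) = G.inv (c j) := ⟨i, hi, rfl⟩
    have hh' : ¬ ∃ j, j < n ∧ G.inv (c i) = c j := fun ⟨j, hj, h2⟩ => hcic i hi j hj h2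
    have n1 : G.inv (c i) ≠ e := fun h1 => hce' i hi (inv_eq_iff.1 h1)
    have n2 : G.inv (c i) ≠ G.inv e := fun h1 => hce i hi (inv_inj h1)
    change (if G.inv (c i) = e then 0 else if G.inv (c i) = G.inv e then 1 else
      if hh : ∃ j, j < n ∧ G.inv (c i) = c j then CO l s (Classical.choose hh) else
      if hh : ∃ j, j < n ∧ G.inv (c i) = G.inv (c j) then CI l s (Classical.choose hh)
        else _) = _
    rw [if_neg n1, if_neg n2, dif_neg hh', dif_pos hh]
    obtain ⟨h1, h2⟩ := Classical.choose_spec hh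
    rw [← hcc i hi _ h1 (inv_inj h2)]
  have lamo : ∀ d, d ≠ e → d ≠ G.inv e → (∀ i < n, d ≠ c i) → (∀ i < n, d ≠ G.inv (c i)) →
      lam d = Lab (f d) := by
    intro d n1 n2 n3 n4
    have h1 : ¬ ∃ i, i < n ∧ d = c i := fun ⟨i, hi, h2⟩ => n3 i hi h2
    have h2 : ¬ ∃ i, i < n ∧ d = G.inv (c i) := fun ⟨i, hi, h2⟩ => n4 i hi h2
    change (if d = e then 0 else if d = G.inv e then 1 else
      if hh : ∃ i, i < n ∧ d = c i then _ else
      if hh : ∃ i, i < n ∧ d = G.inv (c i) then _ else Lab (f d)) = _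
    rw [if_neg n1, if_neg n2, dif_neg h1, dif_neg h2]
  -- darts with an end outside `X`
  have hse : G.src e ∈ X := by rw [← hP.v0]; exact hvX 0 (Nat.zero_le _)
  have hte : G.tgt e ∈ X := by rw [← hP.vn]; exact hvX n le_rfl
  have lamX : ∀ d, G.src d ∉ X ∨ G.tgt d ∉ X → lam d = Lab (f d) := by
    intro d hd
    refine lamo d ?_ ?_ ?_ ?_
    · rintro rfl
      rcases hd with h1 | h1
      · exact h1 hse
      · exact h1 hte
    · rintro rfl
      rw [src_inv, tgt_inv] at hd
      rcases hd with h1 | h1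
      · exact h1 hte
      · exact h1 hse
    · rintro i hi rfl
      rw [hcs i hi, hct i hi] at hd
      rcases hd with h1 | h1
      · exact h1 (hvX i hi.le)
      · exact h1 (hvX _ hi)
    · rintro i hi rfl
      rw [src_inv, tgt_inv, hcs i hi, hct i hi] at hd
      rcases hd with h1 | h1
      · exact h1 (hvX _ hi)
      · exact h1 (hvX i hi.le)
  have lamh : ∀ i ≤ n, lam (h i) = Lab (f (h i)) := fun i hi =>
    lamX _ (Or.inr (hR.leg i hi).2.1)
  have lamih : ∀ i ≤ n, lam (G.inv (h i)) = Lab (f (G.inv (h i))) := fun i hi =>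
    lamX _ (Or.inl (by rw [src_inv]; exact (hR.leg i hi).2.1))
  -- labels at the ends of the path
  have h00 : lam (h 0) = RR l s 0 := by rw [lamh 0 (Nat.zero_le _), hR.f0.1, LabR 0 hn]
  have h00' : lam (G.inv (h 0)) = LL l s 0 := by rw [lamih 0 (Nat.zero_le _), hR.f0.2, LabL 0 hn]
  have hnn : lam (h n) = LL l s (n - 1) := by
    rw [lamh n le_rfl, hR.fn.1, LabL (n - 1) (by omega)]
  have hnn' : lam (G.inv (h n)) = RR l s (n - 1) := by
    rw [lamih n le_rfl, hR.fn.2, LabR (n - 1) (by omega)]
  have hmL : ∀ i, i + 1 < n → l (i + 1) → lam (h (i + 1)) = LL l s i ∧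
      lam (G.inv (h (i + 1))) = LL l s (i + 1) := by
    intro i hi hl
    obtain ⟨-, h2, h3⟩ := hR.left (i + 1) (Nat.succ_pos _) hi hl
    rw [Nat.add_sub_cancel] at h2
    rw [lamh _ hi.le, lamih _ hi.le, h2, h3, LabL _ hi, LabL i (by omega)]
    exact ⟨rfl, rfl⟩
  have hmR : ∀ i, i + 1 < n → ¬ l (i + 1) → lam (h (i + 1)) = RR l s (i + 1) ∧
      lam (G.inv (h (i + 1))) = RR l s i := by
    intro i hi hl
    obtain ⟨-, h2, h3⟩ := hR.right (i + 1) (Nat.succ_pos _) hi hl
    rw [Nat.add_sub_cancel] at h3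
    rw [lamh _ hi.le, lamih _ hi.le, h2, h3, LabR _ hi, LabR i (by omega)]
    exact ⟨rfl, rfl⟩
  -- states at the ends
  have end0 : LL l s 0 ≠ RR l s 0 ∧ ∀ k, tri k 0 (CO l s 0) (RR l s 0) =
      tri k 1 (CI l s 0) (LL l s 0) := by
    have h1 : st l s 0 = s := rfl
    unfold LL RR CO CI tri
    rw [h1]
    cases s with
    | V => exact ⟨by simp [lL, lR], fun k => by simp only [lL, lR, cO, cI]; ring_nf⟩
    | U => exact ⟨by simp [lL, lR], fun k => by simp only [lL, lR, cO, cI]; ring_nf⟩
    | E => exact absurd rfl hs0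
  have endn : LL l s (n - 1) ≠ RR l s (n - 1) ∧ ∀ k,
      tri k 1 (CI l s (n - 1)) (LL l s (n - 1)) = tri k 0 (CO l s (n - 1)) (RR l s (n - 1)) := by
    unfold LL RR CO CI tri
    cases hst : st l s (n - 1) with
    | V => exact ⟨by simp [lL, lR], fun k => by simp only [lL, lR, cO, cI]; ring_nf⟩
    | U => exact ⟨by simp [lL, lR], fun k => by simp only [lL, lR, cO, cI]; ring_nf⟩
    | E => exact absurd hst hsn
  -- properness
  have prop1 : ∀ d, G.src d ∈ X → lam d ≠ lam (G.inv d) := by
    intro d hd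
    have pe : lam e ≠ lam (G.inv e) := by rw [lame, lamie]; decide
    have pc : ∀ i < n, lam (c i) ≠ lam (G.inv (c i)) := fun i hi => by
      rw [lamc i hi, lamic i hi]; exact cOI _ _
    have pic : ∀ i < n, lam (G.inv (c i)) ≠ lam (G.inv (G.inv (c i))) := fun i hi => by
      rw [G.inv_inv]; exact (pc i hi).symm
    obtain ⟨i, hi, hiv⟩ := (hP.mem _).1 hd
    rcases Nat.eq_zero_or_pos i with h0 | h0
    · subst h0
      rcases hR.star0 d hiv with r | r | r
      · rw [r]; exact pe
      · rw [r]; exact pc 0 hn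
      · rw [r, h00, h00']; exact end0.1.symm
    · rcases Nat.lt_or_ge i n with h1 | h1
      · rcases hR.star i h0 h1 d hiv with r | r | r
        · rw [r]; exact pic _ (by omega)
        · rw [r]; exact pc i h1
        · obtain ⟨j, rfl⟩ : ∃ j, i = j + 1 := ⟨i - 1, by omega⟩
          rw [r]
          by_cases hl : l (j + 1)
          · rw [(hmL j h1 hl).1, (hmL j h1 hl).2]
            exact LLn l s j hl
          · rw [(hmR j h1 hl).1, (hmR j h1 hl).2]
            exact RRn l s j hl
      · have : i = n := by omega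
        subst this
        rcases hR.starn d hiv with r | r | r
        · rw [r, G.inv_inv]; exact pe.symm
        · rw [r]; exact pic _ (by omega)
        · rw [r, hnn, hnn']; exact endn.1
  refine ⟨lam, fun d _ => ?_, fun x => ?_⟩
  · by_cases h1 : G.src d ∈ X
    · exact prop1 d h1
    · by_cases h2 : G.tgt d ∈ X
      · have := prop1 (G.inv d) h2
        rw [G.inv_inv] at this
        exact this.symm
      · rw [lamX d (Or.inl h1), lamX (G.inv d) (Or.inl h2)]
        obtain ⟨h3, h4⟩ := hR.out d h1 h2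
        by_cases h5 : ∃ i < n, f d = f (c i) ∨ f d = f (G.inv (c i))
        · have h6 : ¬ ∃ i < n, f (G.inv d) = f (c i) ∨ f (G.inv d) = f (G.inv (c i)) :=
            fun h6 => h4 ⟨h5, h6⟩
          have := LabS _ h5
          rw [LabO _ h6]
          omega
        · rw [LabO _ h5]
          by_cases h6 : ∃ i < n, f (G.inv d) = f (c i) ∨ f (G.inv d) = f (G.inv (c i))
          · have := LabS _ h6
            omega
          · rw [LabO _ h6]
            omega
  · by_cases hx : x ∈ X
    · obtain ⟨i, hi, hiv⟩ := (hP.mem _).1 hx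
      subst hiv
      rcases Nat.eq_zero_or_pos i with h0 | h0
      · subst h0
        refine bal3 hG hR.star0 hP.v0.symm (hcs 0 hn) (hR.leg 0 (Nat.zero_le _)).1 lam fun k => ?_
        rw [lame, lamie, lamc 0 hn, lamic 0 hn, h00, h00']
        exact end0.2 k
      · rcases Nat.lt_or_ge i n with h1 | h1
        · obtain ⟨j, rfl⟩ : ∃ j, i = j + 1 := ⟨i - 1, by omega⟩
          have hst := hR.star (j + 1) h0 h1
          rw [Nat.add_sub_cancel] at hst
          refine bal3 hG hst (by rw [src_inv, hct j (by omega)]) (hcs _ h1)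
            (hR.leg _ h1.le).1 lam fun k => ?_
          rw [G.inv_inv, lamc _ h1, lamic _ h1, lamc j (by omega), lamic j (by omega)]
          by_cases hl : l (j + 1)
          · rw [(hmL j h1 hl).1, (hmL j h1 hl).2]
            exact triL l s j hl k
          · rw [(hmR j h1 hl).1, (hmR j h1 hl).2]
            exact triR l s j hl k
        · have : i = n := by omega
          subst this
          have e1 : i - 1 + 1 = i := by omega
          refine bal3 hG hR.starn (by rw [src_inv, hP.vn])
            (by rw [src_inv, hct (i - 1) (by omega), e1]) (hR.leg i le_rfl).1 lam fun k => ?_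
          rw [G.inv_inv, G.inv_inv, lame, lamie, lamc (i - 1) (by omega), lamic (i - 1) (by omega),
            hnn, hnn']
          exact endn.2 k
    · intro k
      have h1 := balAt_comp (hf x) Lab k
      have e1 : (sel univ fun d => G.src d = x ∧ lam d = k) =
          sel (univ \ {e, G.inv e}) fun d => G.src d = x ∧ Lab (f d) = k := by
        apply sel_congr
        intro d
        constructor
        · rintro ⟨-, h2, h3⟩
          refine ⟨?_, h2, ?_⟩
          · rw [mem_sdiff, mem_insert, mem_singleton]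
            refine ⟨mem_univ _, ?_⟩
            rintro (rfl | rfl)
            · exact hx (h2 ▸ hse)
            · rw [src_inv] at h2
              exact hx (h2 ▸ hte)
          · rw [← lamX d (Or.inl (by rw [h2]; exact hx))]
            exact h3
        · rintro ⟨-, h2, h3⟩
          refine ⟨mem_univ _, h2, ?_⟩
          rw [lamX d (Or.inl (by rw [h2]; exact hx))]
          exact h3
      have e2 : (sel univ fun d => G.src d = x ∧ lam (G.inv d) = k) =
          sel (univ \ {e, G.inv e}) fun d => G.src d = x ∧ Lab (f (G.inv d)) = k := by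
        apply sel_congr
        intro d
        constructor
        · rintro ⟨-, h2, h3⟩
          refine ⟨?_, h2, ?_⟩
          · rw [mem_sdiff, mem_insert, mem_singleton]
            refine ⟨mem_univ _, ?_⟩
            rintro (rfl | rfl)
            · exact hx (h2 ▸ hse)
            · rw [src_inv] at h2
              exact hx (h2 ▸ hte)
          · rw [← lamX (G.inv d) (Or.inr (by rw [tgt_inv, h2]; exact hx))]
            exact h3
        · rintro ⟨-, h2, h3⟩
          refine ⟨mem_univ _, h2, ?_⟩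
          rw [lamX (G.inv d) (Or.inr (by rw [tgt_inv, h2]; exact hx))]
          exact h3
      rw [e1, e2]
      exact h1

end Pool.Agent.H67.OC.RING2
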